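import Pool.Agent.AT10.Stmts1
import Pool.Agent.Helper28_AT8.LCL

/-!
# Squad AT10, rows TVA, TVC, FIA, FIC: additivity and conjugation of the values
-/

set_option autoImplicit false
set_option linter.unusedSectionVars false

open scoped BigOperators

noncomputable section

namespace Pool.Agent.PP.T10.H95

open Pool.Agent.Helper51_AWC Pool.Agent.Helper79_WRA Pool.Agent.PP Pool.Agent.PP.KF
open Pool.Agent.PP.K9 Pool.Agent.PP.K9.H97 Pool.Agent.PP.H75 Pool.Agent.PP.T3 Pool.Agent.PP.T2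
open Pool.Agent.PP.T5 Pool.Agent.PP.TB
open Pool.Agent.PP.T8 (rs pw fv rd Ip Rv)

attribute [local instance] Ideal.Quotient.field

section

variable {M : Ideal (integralClosure ℤ ℂ)} [M.IsMaximal] {G : Type} [Group G] [Finite G]

theorem mem_cu {u x : G} : x ∈ Cu u ↔ u * x = x * u := by
  rw [Subgroup.mem_centralizer_iff]
  constructor
  · intro h
    exact h u rfl
  · rintro h y hy
    rw [Set.mem_singleton_iff] at hy
    rw [hy]
    exact h

theorem mem_cu' {u x : G} : x ∈ Cu u ↔ u * x * u⁻¹ = x := by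
  rw [mem_cu, mul_inv_eq_iff_eq_mul]

theorem conj_mem_cu {u g x : G} : x ∈ Cu (g * u * g⁻¹) ↔ g⁻¹ * x * g ∈ Cu u := by
  rw [mem_cu, mem_cu]
  constructor
  · intro h
    have h2 : g⁻¹ * (g * u * g⁻¹ * x) * g = g⁻¹ * (x * (g * u * g⁻¹)) * g := by rw [h]
    calc u * (g⁻¹ * x * g) = g⁻¹ * (g * u * g⁻¹ * x) * g := by group
      _ = g⁻¹ * (x * (g * u * g⁻¹)) * g := h2
      _ = g⁻¹ * x * g * u := by group
  · intro h
    have h2 : g * (u * (g⁻¹ * x * g)) * g⁻¹ = g * (g⁻¹ * x * g * u) * g⁻¹ := by rw [h]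
    calc g * u * g⁻¹ * x = g * (u * (g⁻¹ * x * g)) * g⁻¹ := by group
      _ = g * (g⁻¹ * x * g * u) * g⁻¹ := h2
      _ = x * (g * u * g⁻¹) := by group

/-- a function with support in the centraliser commutes -/
theorem iv_of_supp {F : Type} [Zero F] {u : G} {a : G → F} (h : ∀ x, x ∉ Cu u → a x = 0) (x : G) :
    a (u * x * u⁻¹) = a x := by
  by_cases hx : x ∈ Cu u
  · rw [mem_cu'.1 hx]
  · rw [h x hx]
    apply h
    intro h1
    apply hx
    rw [mem_cu'] at h1 ⊢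
    have h2 : u * x * u⁻¹ * u = u * (u * x * u⁻¹) * u⁻¹ * u := by rw [h1]
    have h3 : u * x = u * (u * x * u⁻¹) := by
      calc u * x = u * x * u⁻¹ * u := by group
        _ = u * (u * x * u⁻¹) * u⁻¹ * u := h2
        _ = u * (u * x * u⁻¹) := by group
    exact (mul_left_cancel h3).symm

theorem rs_supp {F : Type} [Zero F] {C : Subgroup G} {a : G → F} (h : ∀ x, x ∉ C → a x = 0) :
    rs C a = a := by
  funext x
  unfold rs
  split_ifs with hx
  · rfl
  · exact (h x hx).symm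

theorem rs_out {F : Type} [Zero F] {C : Subgroup G} {a : G → F} {x : G} (h : x ∉ C) :
    rs C a x = 0 := by
  unfold rs
  rw [if_neg h]

theorem rs_in {F : Type} [Zero F] {C : Subgroup G} {a : G → F} {x : G} (h : x ∈ C) :
    rs C a x = a x := by
  unfold rs
  rw [if_pos h]

theorem rs_add {F : Type} [Field F] {C : Subgroup G} (a b : G → F) :
    rs C (a + b) = rs C a + rs C b := by
  funext x
  by_cases hx : x ∈ C
  · rw [rs_in hx, Pi.add_apply, Pi.add_apply, rs_in hx, rs_in hx]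
  · rw [rs_out hx, Pi.add_apply, rs_out hx, rs_out hx, add_zero]

theorem rs_zero {F : Type} [Field F] {C : Subgroup G} : rs C (0 : G → F) = 0 := by
  funext x
  by_cases hx : x ∈ C
  · rw [rs_in hx]
  · rw [rs_out hx]
    rfl

theorem add_mulF {F : Type} [Field F] (a b c : G → F) :
    mulF (a + b) c = mulF a c + mulF b c := by
  apply ma_injective
  rw [ma_mul, ma_add, ma_add, ma_mul, ma_mul, add_mul]

theorem rd_zero : rd M (0 : G → ℂ) = 0 := by
  funext g
  exact rr_zero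

theorem rd_supp {C : Subgroup G} {i : G → ℂ} (h : ∀ g, g ∉ C → i g = 0) :
    ∀ g, g ∉ C → rd M i g = 0 := by
  intro g hg
  unfold rd
  rw [h g hg, rr_zero]

theorem fv_add (i i' : G → ℂ) (z : G) (th : G → ℂ) :
    fv (i + i') z th = fv i z th + fv i' z th := by
  have := Fintype.ofFinite G
  unfold fv
  rw [finsum_eq_sum_of_fintype, finsum_eq_sum_of_fintype, finsum_eq_sum_of_fintype,
    ← Finset.sum_add_distrib]
  refine Finset.sum_congr rfl fun g _ => ?_
  rw [Pi.add_apply, add_mul]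

end

theorem tva (hTVS : TvsStmt) (hLF2 : Lf2Stmt) : TvaStmt := by
  intro ℓ _ M _ hM G _ _ u hu j₁ j₂ h11 h22 h12 h21 hs1 hs2 th hth
  obtain ⟨hlift, hval, -⟩ := hTVS ℓ M hM G u hu
  have hj : mulF (j₁ + j₂) (j₁ + j₂) = j₁ + j₂ := by
    apply ma_injective
    rw [ma_mul, ma_add, add_mul, mul_add, mul_add, ← ma_mul, ← ma_mul, ← ma_mul, ← ma_mul, h11, h12,
      h21, h22, ma_zero, add_zero, zero_add]
  have hjs : ∀ g, g ∉ Cu u → (j₁ + j₂) g = 0 := by
    intro g hg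
    rw [Pi.add_apply, hs1 g hg, hs2 g hg, add_zero]
  obtain ⟨i, hI, his⟩ := hlift (j₁ + j₂) hj hjs
  have hird : rd M i = j₁ + j₂ := by
    rw [← hI.rd, rs_supp (rd_supp his)]
  have hIp : Ip M ⊥ i := by
    refine ⟨hI.rm, hI.id, ?_⟩
    intro v hv x
    rw [Subgroup.mem_bot.1 hv, one_mul, inv_one, mul_one]
  obtain ⟨i₁, hI1, hi1s, hi1rd, hii1, hi1i⟩ := hLF2 M G ⊥ (Cu u) i hIp his j₁ h11 hs1 (by
    intro v hv g
    rw [Subgroup.mem_bot.1 hv, one_mul, inv_one, mul_one]) (by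
    rw [hird]
    apply ma_injective
    rw [ma_mul, ma_add, add_mul, ← ma_mul, ← ma_mul, h11, h21, ma_zero, add_zero]) (by
    rw [hird]
    apply ma_injective
    rw [ma_mul, ma_add, mul_add, ← ma_mul, ← ma_mul, h11, h12, ma_zero, add_zero])
  set i₂ : G → ℂ := i - i₁ with hi2
  have hi2s : ∀ g, g ∉ Cu u → i₂ g = 0 := by
    intro g hg
    rw [hi2, Pi.sub_apply, his g hg, hi1s g hg, sub_zero]
  have hI1' : Il M u j₁ i₁ := ⟨hI1.rm, hI1.id, iv_of_supp hi1s, by
    rw [hi1rd, rs_supp hs1]⟩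
  have hI2' : Il M u j₂ i₂ := by
    refine ⟨?_, ?_, iv_of_supp hi2s, ?_⟩
    · intro g
      exact (RM M).sub_mem (hI.rm g) (hI1.rm g)
    · apply ma_injective
      rw [ma_mul, hi2, ma_sub, sub_mul, mul_sub, mul_sub, ← ma_mul, ← ma_mul, ← ma_mul, ← ma_mul,
        hI.id, hii1, hi1i, hI1.id, sub_self, sub_zero]
    · have h1 : rd M i₂ = j₂ := by
        funext g
        have h2 : rd M i₂ g = rd M i g - rd M i₁ g := by
          unfold rd
          rw [hi2, Pi.sub_apply, rr_sub (hI.rm g) (hI1.rm g)]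
        rw [h2, hird, hi1rd, Pi.add_apply]
        ring
      rw [h1, rs_supp hs2]
  have hsum : i = i₁ + i₂ := by
    rw [hi2]
    ring
  rw [hval _ i hI th hth, hval _ i₁ hI1' th hth, hval _ i₂ hI2' th hth, ← fv_add, ← hsum]

theorem tvc (hTVS : TvsStmt) : TvcStmt := by
  intro ℓ _ M _ hM G _ _ u g hu j hj hjs th hth
  obtain ⟨hlift, hval, -⟩ := hTVS ℓ M hM G u hu
  obtain ⟨i, hI, his⟩ := hlift j hj hjs
  have hu' : El ℓ (g * u * g⁻¹) := by
    obtain ⟨n, hn⟩ := hu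
    refine ⟨n, ?_⟩
    rw [conj_pow, hn, mul_one, mul_inv_cancel]
  obtain ⟨-, hval', -⟩ := hTVS ℓ M hM G (g * u * g⁻¹) hu'
  have hI' : Il M (g * u * g⁻¹) (cj g j) (cj g i) := by
    refine ⟨fun x => hI.rm _, ?_, ?_, ?_⟩
    · rw [← cj_mulF, hI.id]
    · intro x
      unfold cj
      have h1 : g⁻¹ * (g * u * g⁻¹ * x * (g * u * g⁻¹)⁻¹) * g = u * (g⁻¹ * x * g) * u⁻¹ := by group
      rw [h1, hI.iv]
    · rw [← hI.rd]
      funext x
      by_cases hx : x ∈ Cu (g * u * g⁻¹)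
      · rw [rs_in hx]
        unfold cj
        rw [rs_in (conj_mem_cu.1 hx)]
        rfl
      · rw [rs_out hx]
        unfold cj
        rw [rs_out fun h => hx (conj_mem_cu.2 h)]
  rw [hval' _ _ hI' th hth, hval _ i hI th hth]
  have := Fintype.ofFinite G
  unfold fv
  rw [finsum_eq_sum_of_fintype, finsum_eq_sum_of_fintype]
  refine Fintype.sum_equiv (MulAut.conj g⁻¹).toEquiv _ _ fun x => ?_
  have h1 : (MulAut.conj g⁻¹).toEquiv x = g⁻¹ * x * g := by
    simp
  rw [h1]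
  unfold cj
  congr 1
  have h2 : g * u * g⁻¹ * x = g * (u * (g⁻¹ * x * g)) * g⁻¹ := by group
  rw [h2, hth]

section

variable {M : Ideal (integralClosure ℤ ℂ)} [M.IsMaximal] {G : Type} [Group G] [Finite G]

theorem pgroup_zpowers {ℓ : ℕ} {u : G} (hu : El ℓ u) : IsPGroup ℓ (Subgroup.zpowers u) := by
  obtain ⟨n, hn⟩ := hu
  rintro ⟨x, hx⟩
  obtain ⟨m, rfl⟩ := Subgroup.mem_zpowers_iff.1 hx
  refine ⟨n, Subtype.ext ?_⟩
  show (u ^ m) ^ ℓ ^ n = 1
  rw [← zpow_natCast, ← zpow_mul, mul_comm, zpow_mul, zpow_natCast, hn, one_zpow]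

/-- a central idempotent of `F C(u)` commutes with the functions supported on `C(u)` -/
theorem ix_comm {u : G} {b : G → FF M} (hb : Ix (Cu u) b) {a : G → FF M}
    (ha : ∀ x, x ∉ Cu u → a x = 0) : mulF a b = mulF b a := by
  have h1 : (fun t : Cu u => mulF a b t) = fun t : Cu u => mulF b a t := by
    rw [H66.mulF_sub ha, H66.mulF_sub hb.supp]
    exact (H46.mulF_comm hb.idem.1 _).symm
  funext x
  by_cases hx : x ∈ Cu u
  · exact congrFun h1 ⟨x, hx⟩
  · rw [mulF_supp (Cu u) ha hb.supp x hx, mulF_supp (Cu u) hb.supp ha x hx]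

theorem ix_idem {u : G} {b : G → FF M} (hb : Ix (Cu u) b) : mulF b b = b := by
  have h1 : (fun t : Cu u => mulF b b t) = fun t : Cu u => b t := by
    rw [H66.mulF_sub hb.supp]
    exact hb.idem.2
  funext x
  by_cases hx : x ∈ Cu u
  · exact congrFun h1 ⟨x, hx⟩
  · rw [mulF_supp (Cu u) hb.supp hb.supp x hx, hb.supp x hx]

/-- products with a central idempotent -/
theorem mul_ix {u : G} {b : G → FF M} (hb : Ix (Cu u) b) {a c : G → FF M}
    (hc : ∀ x, x ∉ Cu u → c x = 0) :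
    mulF (mulF a b) (mulF c b) = mulF (mulF a c) b := by
  have h1 := ix_comm hb hc
  apply ma_injective
  have h2 : ma b * ma c = ma c * ma b := by rw [← ma_mul, ← ma_mul, h1]
  have h3 : ma b * ma b = ma b := by rw [← ma_mul, ix_idem hb]
  rw [ma_mul, ma_mul, ma_mul, ma_mul, ma_mul]
  calc ma a * ma b * (ma c * ma b) = ma a * (ma b * ma c) * ma b := by
        simp only [mul_assoc]
    _ = ma a * ma c * (ma b * ma b) := by
        rw [h2]
        simp only [mul_assoc]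
    _ = ma a * ma c * ma b := by rw [h3]

theorem rs_supp' {u : G} (a : G → FF M) : ∀ x, x ∉ Cu u → rs (Cu u) a x = 0 :=
  fun _ hx => rs_out hx

end

theorem fia (hTVA : TvaStmt) : FiaStmt := by
  intro ℓ _ M _ hM G _ _ ι _ c β hβ χ hχ u hu i₁ i₂ h11 h22 h12 h21 hv1 hv2
  have hF : GoodF ℓ (FF M) := H50.fld ℓ Fact.out M hM
  have hup := pgroup_zpowers hu
  have := Fintype.ofFinite ι
  have hth : ∀ x y, χ (y * x * y⁻¹) = χ x := fun x y => Pool.Agent.Helper51_AWC.irr_conj hχ x y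
  unfold fi
  rw [finsum_eq_sum_of_fintype, finsum_eq_sum_of_fintype, finsum_eq_sum_of_fintype,
    ← Finset.sum_add_distrib]
  refine Finset.sum_congr rfl fun k _ => ?_
  have hb := hβ.ix k u
  rw [rs_add, add_mulF, ← mul_add]
  congr 1
  refine hTVA ℓ M hM G u hu _ _ ?_ ?_ ?_ ?_ ?_ ?_ χ hth
  · rw [mul_ix hb (rs_supp' _), ← T8.H28.rs_mulF hF hup hv1 hv1, h11]
  · rw [mul_ix hb (rs_supp' _), ← T8.H28.rs_mulF hF hup hv2 hv2, h22]
  · rw [mul_ix hb (rs_supp' _), ← T8.H28.rs_mulF hF hup hv1 hv2, h12, rs_zero, mulF_zero_left]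
  · rw [mul_ix hb (rs_supp' _), ← T8.H28.rs_mulF hF hup hv2 hv1, h21, rs_zero, mulF_zero_left]
  · exact mulF_supp (Cu u) (rs_supp' _) hb.supp
  · exact mulF_supp (Cu u) (rs_supp' _) hb.supp

theorem fic (hTVC : TvcStmt) : FicStmt := by
  intro ℓ _ M _ hM G _ _ ι _ c β hβ χ hχ u g hu i hii hiv
  have hF : GoodF ℓ (FF M) := H50.fld ℓ Fact.out M hM
  have hup := pgroup_zpowers hu
  have := Fintype.ofFinite ι
  have hth : ∀ x y, χ (y * x * y⁻¹) = χ x := fun x y => Pool.Agent.Helper51_AWC.irr_conj hχ x y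
  unfold fi
  rw [finsum_eq_sum_of_fintype, finsum_eq_sum_of_fintype]
  refine Finset.sum_congr rfl fun k _ => ?_
  have hb := hβ.ix k u
  have h1 : rs (Cu (g * u * g⁻¹)) (cj g i) = cj g (rs (Cu u) i) := by
    funext x
    by_cases hx : x ∈ Cu (g * u * g⁻¹)
    · rw [rs_in hx]
      unfold cj
      rw [rs_in (conj_mem_cu.1 hx)]
    · rw [rs_out hx]
      unfold cj
      rw [rs_out fun h => hx (conj_mem_cu.2 h)]
  rw [h1, hβ.eq, ← cj_mulF]
  congr 1
  refine hTVC ℓ M hM G u g hu _ ?_ ?_ χ hth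
  · rw [mul_ix hb (rs_supp' _), ← T8.H28.rs_mulF hF hup hiv hiv, hii]
  · exact mulF_supp (Cu u) (rs_supp' _) hb.supp

end Pool.Agent.PP.T10.H95
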